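import Mathlib

namespace Pool.Agent.Results.MP_89824e_co.StabilizerCounterexample

universe u

/-- The arc relation of the Cayley-coset digraph `D(G,S,H)` on the left cosets of `H`:
`gH → g'H` iff `g⁻¹ g' ∈ HSH`. -/
def CosetArc {G : Type u} [Group G] (H : Subgroup G) (S : Set G) (x y : G ⧸ H) : Prop :=
  ∃ g g' : G, (g : G ⧸ H) = x ∧ (g' : G ⧸ H) = y ∧
    ∃ h₁ ∈ H, ∃ s ∈ S, ∃ h₂ ∈ H, g⁻¹ * g' = h₁ * s * h₂

/-- `(G, S, H)` gives a Cayley-coset presentation of the digraph `E`. -/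
def IsPresentation {V : Type} (E : V → V → Prop) (G : Type u) [Group G] (H : Subgroup G)
    (S : Set G) : Prop :=
  S ∩ H = ∅ ∧ ∃ e : V ≃ G ⧸ H, ∀ u v, E u v ↔ CosetArc H S (e u) (e v)

/-- automorphisms of a digraph -/
def IsAut {V : Type} (E : V → V → Prop) (φ : Equiv.Perm V) : Prop :=
  ∀ u v, E u v ↔ E (φ u) (φ v)

/-- the vertex set of the counterexample -/
abbrev W : Type := ZMod 5 × ZMod 2 × ZMod 2

/-- the arcs `(i; a, b) → (i+1; b, c)` -/
def A (u v : W) : Prop := v.1 = u.1 + 1 ∧ v.2.1 = u.2.2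

lemma zmod2_add_self (x : ZMod 2) : x + x = 0 := by
  revert x
  decide

lemma zmod2_cases (a : ZMod 2) : a = 0 ∨ a = 1 := by
  revert a
  decide

/-- every automorphism has the form `(i; a, b) ↦ (i + k; a + n i, b + n (i+1))` -/
lemma aut_form (φ : Equiv.Perm W) (h : IsAut A φ) :
    ∃ (k : ZMod 5) (n : ZMod 5 → ZMod 2), ∀ i a b, φ (i, a, b) = (i + k, a + n i, b + n (i + 1)) := by
  have harc : ∀ i a b c, (φ (i + 1, b, c)).1 = (φ (i, a, b)).1 + 1 ∧
      (φ (i + 1, b, c)).2.1 = (φ (i, a, b)).2.2 := fun i a b c =>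
    (h (i, a, b) (i + 1, b, c)).1 ⟨rfl, rfl⟩
  -- levels
  have hlev : ∀ i a b, (φ (i, a, b)).1 = i + (φ (0, 0, 0)).1 := by
    have h1 : ∀ i a b c, (φ (i + 1, b, c)).1 = (φ (i, a, b)).1 + 1 := fun i a b c =>
      (harc i a b c).1
    -- independence of both coordinates
    have h2 : ∀ i a b, (φ (i, a, b)).1 = (φ (i, 0, 0)).1 := by
      intro i a b
      have e1 : ∀ i a b, (φ (i, a, b)).1 = (φ (i, 0, b)).1 := by
        intro i a b
        have := h1 i a b 0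
        have h3 := h1 i 0 b 0
        rw [this] at h3
        exact add_right_cancel h3
      have e2 : ∀ i b c, (φ (i, b, c)).1 = (φ (i, b, 0)).1 := by
        intro i b c
        have h3 := h1 (i - 1) 0 b c
        have h4 := h1 (i - 1) 0 b 0
        rw [sub_add_cancel] at h3 h4
        rw [h3, h4]
      rw [e1, e2]
    have h5 : ∀ i, (φ (i + 1, 0, 0)).1 = (φ (i, 0, 0)).1 + 1 := fun i => h1 i 0 0 0
    have h6 : ∀ m : ℕ, (φ ((m : ZMod 5), 0, 0)).1 = (m : ZMod 5) + (φ (0, 0, 0)).1 := by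
      intro m
      induction m with
      | zero => simp
      | succ m ih =>
        rw [Nat.cast_succ, h5, ih]
        ring
    intro i a b
    rw [h2]
    have h7 := h6 i.val
    rw [ZMod.natCast_zmod_val] at h7
    exact h7
  have hF : ∀ i a b, (φ (i, a, b)).2.1 = (φ (i, a, 0)).2.1 := by
    intro i a b
    have h3 := (harc (i - 1) 0 a b).2
    have h4 := (harc (i - 1) 0 a 0).2
    rw [sub_add_cancel] at h3 h4
    rw [h3, h4]
  have hS : ∀ i a b, (φ (i, a, b)).2.2 = (φ (i + 1, b, 0)).2.1 := fun i a b =>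
    ((harc i a b 0).2).symm
  have hne : ∀ i, (φ (i, 1, 0)).2.1 ≠ (φ (i, 0, 0)).2.1 := by
    intro i heq
    have h3 : φ (i, 1, 0) = φ (i, 0, 0) := by
      refine Prod.ext ?_ (Prod.ext heq ?_)
      · rw [hlev, hlev i 0 0]
      · rw [hS, hS i 0 0]
    have h4 := φ.injective h3
    have h5 : (1 : ZMod 2) = 0 := congrArg (fun v : W => v.2.1) h4
    exact absurd h5 (by decide)
  have hFa : ∀ i a, (φ (i, a, 0)).2.1 = a + (φ (i, 0, 0)).2.1 := by
    intro i a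
    have key : ∀ x y a : ZMod 2, x ≠ y → (a = 0 → y = a + y) ∧ (a = 1 → x = a + y) := by decide
    have h3 := key (φ (i, 1, 0)).2.1 (φ (i, 0, 0)).2.1 a (hne i)
    have h4 : a = 0 ∨ a = 1 := zmod2_cases a
    rcases h4 with h4 | h4
    · subst h4
      exact h3.1 rfl
    · subst h4
      exact h3.2 rfl
  refine ⟨(φ (0, 0, 0)).1, fun i => (φ (i, 0, 0)).2.1, fun i a b => ?_⟩
  refine Prod.ext (hlev i a b) (Prod.ext ?_ ?_)
  · show (φ (i, a, b)).2.1 = a + (φ (i, 0, 0)).2.1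
    rw [hF, hFa]
  · show (φ (i, a, b)).2.2 = b + (φ (i + 1, 0, 0)).2.1
    rw [hS, hFa]

lemma solve1 : ∀ n2 n3 n4 : ZMod 2, ∃ c0 c1 c2 c3 c4 : ZMod 2,
    c0 * 1 + c1 * n4 + c2 * n3 + c3 * n2 + c4 * 0 = 0 ∧
    c0 * 0 + c1 * 1 + c2 * n4 + c3 * n3 + c4 * n2 = 0 ∧
    c0 * n2 + c1 * 0 + c2 * 1 + c3 * n4 + c4 * n3 = 1 ∧
    c0 * n3 + c1 * n2 + c2 * 0 + c3 * 1 + c4 * n4 = 1 ∧
    c0 * n4 + c1 * n3 + c2 * n2 + c3 * 0 + c4 * 1 = 0 := by decide

lemma solve2 : ∀ n2 n3 n4 : ZMod 2, ∃ c0 c1 c2 c3 c4 : ZMod 2,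
    c0 * 1 + c1 * n4 + c2 * n3 + c3 * n2 + c4 * 0 = 0 ∧
    c0 * 0 + c1 * 1 + c2 * n4 + c3 * n3 + c4 * n2 = 0 ∧
    c0 * n2 + c1 * 0 + c2 * 1 + c3 * n4 + c4 * n3 = 0 ∧
    c0 * n3 + c1 * n2 + c2 * 0 + c3 * 1 + c4 * n4 = 1 ∧
    c0 * n4 + c1 * n3 + c2 * n2 + c3 * 0 + c4 * 1 = 1 := by decide

section Pres

variable {G : Type u} [Group G] {H : Subgroup G} {S : Set G}

lemma cosetArc_smul {x y : G ⧸ H} (g : G) (h : CosetArc H S x y) :
    CosetArc H S (g • x) (g • y) := by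
  obtain ⟨g1, g2, h1, h2, h3⟩ := h
  refine ⟨g * g1, g * g2, ?_, ?_, ?_⟩
  · rw [← h1]
    rfl
  · rw [← h2]
    rfl
  · have : (g * g1)⁻¹ * (g * g2) = g1⁻¹ * g2 := by group
    rw [this]
    exact h3

/-- the action of `G` on `W` -/
def ρ (e : W ≃ G ⧸ H) (g : G) : Equiv.Perm W := e.trans ((MulAction.toPerm g).trans e.symm)

lemma ρ_apply (e : W ≃ G ⧸ H) (g : G) (v : W) : ρ e g v = e.symm (g • e v) := rfl

lemma ρ_mul (e : W ≃ G ⧸ H) (g g' : G) (v : W) : ρ e (g * g') v = ρ e g (ρ e g' v) := by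
  rw [ρ_apply, ρ_apply, ρ_apply, Equiv.apply_symm_apply, mul_smul]

lemma ρ_one (e : W ≃ G ⧸ H) (v : W) : ρ e 1 v = v := by
  rw [ρ_apply, one_smul, Equiv.symm_apply_apply]

lemma ρ_aut (e : W ≃ G ⧸ H) (he : ∀ u v, A u v ↔ CosetArc H S (e u) (e v)) (g : G) :
    IsAut A (ρ e g) := by
  intro u v
  rw [he u v, he (ρ e g u) (ρ e g v), ρ_apply, ρ_apply, Equiv.apply_symm_apply,
    Equiv.apply_symm_apply]
  constructor
  · exact cosetArc_smul g
  · intro h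
    have h1 := cosetArc_smul g⁻¹ h
    rw [inv_smul_smul, inv_smul_smul] at h1
    exact h1

/-- `x` acts by level shift `k` and translation vector `n` -/
def P (e : W ≃ G ⧸ H) (x : G) (k : ZMod 5) (n : ZMod 5 → ZMod 2) : Prop :=
  ∀ i a b, ρ e x (i, a, b) = (i + k, a + n i, b + n (i + 1))

lemma P_one (e : W ≃ G ⧸ H) : P e 1 0 (fun _ => 0) := by
  intro i a b
  rw [ρ_one, add_zero, add_zero, add_zero]

lemma P_mul {e : W ≃ G ⧸ H} {x y : G} {n m : ZMod 5 → ZMod 2} (hx : P e x 0 n) (hy : P e y 0 m) :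
    P e (x * y) 0 (fun i => n i + m i) := by
  intro i a b
  rw [ρ_mul, hy, hx, add_zero, add_zero]
  refine Prod.ext rfl (Prod.ext ?_ ?_)
  · show a + m i + n i = a + (n i + m i)
    ring
  · show b + m (i + 1) + n (i + 1) = b + (n (i + 1) + m (i + 1))
    ring

lemma P_conj {e : W ≃ G ⧸ H} {x t : G} {n m : ZMod 5 → ZMod 2} (hx : P e x 0 n)
    (ht : P e t 1 m) : P e (t * x * t⁻¹) 0 (fun i => n (i - 1)) := by
  intro i a b
  obtain ⟨i', a', b', hu⟩ : ∃ i' a' b', ρ e t⁻¹ (i, a, b) = (i', a', b') :=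
    ⟨_, _, _, rfl⟩
  have h1 : ρ e t (i', a', b') = (i, a, b) := by
    rw [← hu, ← ρ_mul, mul_inv_cancel, ρ_one]
  rw [ht] at h1
  have e1 : i' + 1 = i := congrArg Prod.fst h1
  have e2 : a' + m i' = a := congrArg (fun v : W => v.2.1) h1
  have e3 : b' + m (i' + 1) = b := congrArg (fun v : W => v.2.2) h1
  rw [ρ_mul, ρ_mul, hu, hx, ht]
  subst e1
  refine Prod.ext (by simp) (Prod.ext ?_ ?_)
  · show a' + n i' + m (i' + 0) = a + n (i' + 1 - 1)
    rw [add_zero, add_sub_cancel_right, ← e2]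
    ring
  · show b' + n (i' + 1) + m (i' + 0 + 1) = b + n (i' + 1 + 1 - 1)
    rw [add_zero, add_sub_cancel_right, ← e3]
    ring

lemma P_pw {e : W ≃ G ⧸ H} {x : G} {n : ZMod 5 → ZMod 2} (hx : P e x 0 n) (c : ZMod 2) :
    ∃ y : G, P e y 0 (fun i => c * n i) := by
  rcases zmod2_cases c with h | h
  · refine ⟨1, ?_⟩
    rw [h]
    have : (fun i => (0 : ZMod 2) * n i) = fun _ => 0 := by
      funext i
      rw [zero_mul]
    rw [this]
    exact P_one e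
  · refine ⟨x, ?_⟩
    rw [h]
    have : (fun i => (1 : ZMod 2) * n i) = n := by
      funext i
      rw [one_mul]
    rw [this]
    exact hx

lemma P_comb {e : W ≃ G ⧸ H} {x t : G} {n m : ZMod 5 → ZMod 2} (hx : P e x 0 n)
    (ht : P e t 1 m) (c0 c1 c2 c3 c4 : ZMod 2) :
    ∃ y : G, P e y 0 (fun i => c0 * n i + c1 * n (i - 1) + c2 * n (i - 1 - 1) +
      c3 * n (i - 1 - 1 - 1) + c4 * n (i - 1 - 1 - 1 - 1)) := by
  have h1 := P_conj hx ht
  have h2 := P_conj h1 ht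
  have h3 := P_conj h2 ht
  have h4 := P_conj h3 ht
  obtain ⟨y0, hy0⟩ := P_pw hx c0
  obtain ⟨y1, hy1⟩ := P_pw h1 c1
  obtain ⟨y2, hy2⟩ := P_pw h2 c2
  obtain ⟨y3, hy3⟩ := P_pw h3 c3
  obtain ⟨y4, hy4⟩ := P_pw h4 c4
  exact ⟨y0 * y1 * y2 * y3 * y4, P_mul (P_mul (P_mul (P_mul hy0 hy1) hy2) hy3) hy4⟩

lemma main {e : W ≃ G ⧸ H} [Finite G] (he : ∀ u v, A u v ↔ CosetArc H S (e u) (e v)) :
    2 < Nat.card H := by
  -- transitivity
  have htr : ∀ v : W, ∃ g : G, ρ e g (0, 0, 0) = v := by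
    intro v
    obtain ⟨g, hg⟩ := MulAction.exists_smul_eq G (e (0, 0, 0)) (e v)
    refine ⟨g, ?_⟩
    rw [ρ_apply, hg, Equiv.symm_apply_apply]
  obtain ⟨g, hg⟩ := htr (0, 1, 0)
  obtain ⟨t, ht⟩ := htr (1, 0, 0)
  obtain ⟨k, n, hn⟩ := aut_form (ρ e g) (ρ_aut e he g)
  obtain ⟨l, m, hm⟩ := aut_form (ρ e t) (ρ_aut e he t)
  have hk : k = 0 ∧ n 0 = 1 ∧ n 1 = 0 := by
    have h1 := hn 0 0 0
    rw [hg] at h1
    have e1 : (0 : ZMod 5) = 0 + k := congrArg Prod.fst h1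
    have e2 : (1 : ZMod 2) = 0 + n 0 := congrArg (fun v : W => v.2.1) h1
    have e3 : (0 : ZMod 2) = 0 + n (0 + 1) := congrArg (fun v : W => v.2.2) h1
    rw [zero_add] at e1 e2 e3
    rw [zero_add] at e3
    exact ⟨e1.symm, e2.symm, e3.symm⟩
  have hl : l = 1 := by
    have h1 := hm 0 0 0
    rw [ht] at h1
    have e1 : (1 : ZMod 5) = 0 + l := congrArg Prod.fst h1
    rw [zero_add] at e1
    exact e1.symm
  obtain ⟨hk, hn0, hn1⟩ := hk
  subst hk
  subst hl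
  have hPg : P e g 0 n := hn
  have hPt : P e t 1 m := hm
  obtain ⟨c0, c1, c2, c3, c4, q0, q1, q2, q3, q4⟩ := solve1 (n 2) (n 3) (n 4)
  obtain ⟨d0, d1, d2, d3, d4, r0, r1, r2, r3, r4⟩ := solve2 (n 2) (n 3) (n 4)
  obtain ⟨y, hy⟩ := P_comb hPg hPt c0 c1 c2 c3 c4
  obtain ⟨z, hz⟩ := P_comb hPg hPt d0 d1 d2 d3 d4
  have a1 : (0 : ZMod 5) - 1 = 4 := by decide
  have a2 : (4 : ZMod 5) - 1 = 3 := by decide
  have a3 : (3 : ZMod 5) - 1 = 2 := by decide
  have a4 : (2 : ZMod 5) - 1 = 1 := by decide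
  have a5 : (1 : ZMod 5) - 1 = 0 := by decide
  have b1 : (0 : ZMod 5) + 1 = 1 := by decide
  have b2 : (2 : ZMod 5) + 1 = 3 := by decide
  have hyfix : ρ e y (0, 0, 0) = (0, 0, 0) := by
    rw [hy]
    refine Prod.ext (by simp) (Prod.ext ?_ ?_)
    · show 0 + (c0 * n 0 + c1 * n (0 - 1) + c2 * n (0 - 1 - 1) + c3 * n (0 - 1 - 1 - 1) +
        c4 * n (0 - 1 - 1 - 1 - 1)) = 0
      rw [a1, a2, a3, a4, hn0, hn1, zero_add]
      exact q0
    · show 0 + (c0 * n (0 + 1) + c1 * n (0 + 1 - 1) + c2 * n (0 + 1 - 1 - 1) +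
        c3 * n (0 + 1 - 1 - 1 - 1) + c4 * n (0 + 1 - 1 - 1 - 1 - 1)) = 0
      rw [b1, a5, a1, a2, a3, hn0, hn1, zero_add]
      exact q1
  have hzfix : ρ e z (0, 0, 0) = (0, 0, 0) := by
    rw [hz]
    refine Prod.ext (by simp) (Prod.ext ?_ ?_)
    · show 0 + (d0 * n 0 + d1 * n (0 - 1) + d2 * n (0 - 1 - 1) + d3 * n (0 - 1 - 1 - 1) +
        d4 * n (0 - 1 - 1 - 1 - 1)) = 0
      rw [a1, a2, a3, a4, hn0, hn1, zero_add]
      exact r0
    · show 0 + (d0 * n (0 + 1) + d1 * n (0 + 1 - 1) + d2 * n (0 + 1 - 1 - 1) +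
        d3 * n (0 + 1 - 1 - 1 - 1) + d4 * n (0 + 1 - 1 - 1 - 1 - 1)) = 0
      rw [b1, a5, a1, a2, a3, hn0, hn1, zero_add]
      exact r1
  have hy2 : (ρ e y (2, 0, 0)).2.1 = 1 ∧ (ρ e y (2, 0, 0)).2.2 = 1 := by
    rw [hy]
    constructor
    · show 0 + (c0 * n 2 + c1 * n (2 - 1) + c2 * n (2 - 1 - 1) + c3 * n (2 - 1 - 1 - 1) +
        c4 * n (2 - 1 - 1 - 1 - 1)) = 1
      rw [a4, a5, a1, a2, hn0, hn1, zero_add]
      exact q2
    · show 0 + (c0 * n (2 + 1) + c1 * n (2 + 1 - 1) + c2 * n (2 + 1 - 1 - 1) +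
        c3 * n (2 + 1 - 1 - 1 - 1) + c4 * n (2 + 1 - 1 - 1 - 1 - 1)) = 1
      rw [b2, a3, a4, a5, a1, hn0, hn1, zero_add]
      exact q3
  have hz2 : (ρ e z (2, 0, 0)).2.1 = 0 ∧ (ρ e z (2, 0, 0)).2.2 = 1 := by
    rw [hz]
    constructor
    · show 0 + (d0 * n 2 + d1 * n (2 - 1) + d2 * n (2 - 1 - 1) + d3 * n (2 - 1 - 1 - 1) +
        d4 * n (2 - 1 - 1 - 1 - 1)) = 0
      rw [a4, a5, a1, a2, hn0, hn1, zero_add]
      exact r2
    · show 0 + (d0 * n (2 + 1) + d1 * n (2 + 1 - 1) + d2 * n (2 + 1 - 1 - 1) +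
        d3 * n (2 + 1 - 1 - 1 - 1) + d4 * n (2 + 1 - 1 - 1 - 1 - 1)) = 1
      rw [b2, a3, a4, a5, a1, hn0, hn1, zero_add]
      exact r3
  -- elements of H
  obtain ⟨g0, hg0⟩ := QuotientGroup.mk_surjective (e (0, 0, 0))
  have hH : ∀ x : G, ρ e x (0, 0, 0) = (0, 0, 0) → g0⁻¹ * (x * g0) ∈ H := by
    intro x hx
    rw [ρ_apply, Equiv.symm_apply_eq, ← hg0] at hx
    have h1 : ((x * g0 : G) : G ⧸ H) = (g0 : G ⧸ H) := hx
    exact QuotientGroup.eq.1 h1.symm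
  have hinj : ∀ x x' : G, g0⁻¹ * (x * g0) = g0⁻¹ * (x' * g0) → x = x' := by
    intro x x' h
    exact mul_right_cancel (mul_left_cancel h)
  have h1 : ρ e (1 : G) (0, 0, 0) = (0, 0, 0) := ρ_one e _
  have n01 : (0 : ZMod 2) ≠ 1 := by decide
  have hne1 : (1 : G) ≠ y := by
    intro h
    have h2 := hy2.1
    rw [← h, ρ_one] at h2
    exact n01 h2
  have hne2 : (1 : G) ≠ z := by
    intro h
    have h2 := hz2.2
    rw [← h, ρ_one] at h2
    exact n01 h2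
  have hne3 : y ≠ z := by
    intro h
    have h2 := hy2.1
    rw [h, hz2.1] at h2
    exact n01 h2
  have := Fintype.ofFinite H
  rw [Nat.card_eq_fintype_card, Fintype.two_lt_card_iff]
  refine ⟨⟨_, hH 1 h1⟩, ⟨_, hH y hyfix⟩, ⟨_, hH z hzfix⟩, ?_, ?_, ?_⟩
  · intro h
    exact hne1 (hinj _ _ (congrArg Subtype.val h))
  · intro h
    exact hne2 (hinj _ _ (congrArg Subtype.val h))
  · intro h
    exact hne3 (hinj _ _ (congrArg Subtype.val h))

end Pres

/-! ### the digraph is vertex-transitive and has a presentation -/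

/-- the automorphism with level shift `k` and translation vector `n` -/
def τ (k : ZMod 5) (n : ZMod 5 → ZMod 2) : Equiv.Perm W where
  toFun v := (v.1 + k, v.2.1 + n v.1, v.2.2 + n (v.1 + 1))
  invFun v := (v.1 - k, v.2.1 - n (v.1 - k), v.2.2 - n (v.1 - k + 1))
  left_inv v := by
    refine Prod.ext ?_ (Prod.ext ?_ ?_)
    · show v.1 + k - k = v.1
      ring
    · show v.2.1 + n v.1 - n (v.1 + k - k) = v.2.1
      rw [add_sub_cancel_right, add_sub_cancel_right]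
    · show v.2.2 + n (v.1 + 1) - n (v.1 + k - k + 1) = v.2.2
      rw [add_sub_cancel_right, add_sub_cancel_right]
  right_inv v := by
    refine Prod.ext ?_ (Prod.ext ?_ ?_)
    · show v.1 - k + k = v.1
      ring
    · show v.2.1 - n (v.1 - k) + n (v.1 - k) = v.2.1
      rw [sub_add_cancel]
    · show v.2.2 - n (v.1 - k + 1) + n (v.1 - k + 1) = v.2.2
      rw [sub_add_cancel]

lemma τ_aut (k : ZMod 5) (n : ZMod 5 → ZMod 2) : IsAut A (τ k n) := by
  intro u v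
  show (v.1 = u.1 + 1 ∧ v.2.1 = u.2.2) ↔
    (v.1 + k = u.1 + k + 1 ∧ v.2.1 + n v.1 = u.2.2 + n (u.1 + 1))
  constructor
  · rintro ⟨h1, h2⟩
    rw [h1, h2]
    exact ⟨by ring, rfl⟩
  · rintro ⟨h1, h2⟩
    have h3 : v.1 = u.1 + 1 := by
      have : v.1 + k = u.1 + 1 + k := by rw [h1]; ring
      exact add_right_cancel this
    refine ⟨h3, ?_⟩
    rw [h3] at h2
    exact add_right_cancel h2

lemma transitive (u v : W) : ∃ φ : Equiv.Perm W, IsAut A φ ∧ φ u = v := by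
  refine ⟨τ (v.1 - u.1) (fun t => if t = u.1 then v.2.1 - u.2.1 else v.2.2 - u.2.2),
    τ_aut _ _, ?_⟩
  refine Prod.ext ?_ (Prod.ext ?_ ?_)
  · show u.1 + (v.1 - u.1) = v.1
    ring
  · show u.2.1 + (if u.1 = u.1 then v.2.1 - u.2.1 else v.2.2 - u.2.2) = v.2.1
    rw [if_pos rfl]
    ring
  · show u.2.2 + (if u.1 + 1 = u.1 then v.2.1 - u.2.1 else v.2.2 - u.2.2) = v.2.2
    have : u.1 + 1 ≠ u.1 := by
      intro h
      have h2 : (1 : ZMod 5) = 0 := by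
        have : u.1 + 1 = u.1 + 0 := by rw [h, add_zero]
        exact add_left_cancel this
      exact absurd h2 (by decide)
    rw [if_neg this]
    ring

/-- the automorphism group -/
def AutG : Subgroup (Equiv.Perm W) where
  carrier := {φ | IsAut A φ}
  mul_mem' {φ ψ} hφ hψ u v := (hψ u v).trans (hφ (ψ u) (ψ v))
  one_mem' _ _ := Iff.rfl
  inv_mem' {φ} hφ u v := by
    have := hφ (φ⁻¹ u) (φ⁻¹ v)
    have e1 : φ (φ⁻¹ u) = u := φ.apply_symm_apply u
    have e2 : φ (φ⁻¹ v) = v := φ.apply_symm_apply v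
    rw [e1, e2] at this
    exact this.symm

lemma presentation : IsPresentation A AutG (MulAction.stabilizer AutG ((0, 0, 0) : W))
    {g : AutG | A (0, 0, 0) (g.1 (0, 0, 0))} := by
  constructor
  · ext g
    simp only [Set.mem_inter_iff, Set.mem_ofPred_eq, SetLike.mem_coe, Set.mem_empty_iff_false,
      iff_false, not_and]
    intro h1 h2
    have h3 : g.1 (0, 0, 0) = (0, 0, 0) := h2
    rw [h3] at h1
    exact absurd h1.1 (by decide)
  · have hbij : Function.Bijective (MulAction.ofQuotientStabilizer AutG ((0, 0, 0) : W)) := by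
      refine ⟨MulAction.injective_ofQuotientStabilizer AutG _, fun v => ?_⟩
      obtain ⟨φ, hφ, hv⟩ := transitive (0, 0, 0) v
      exact ⟨QuotientGroup.mk (⟨φ, hφ⟩ : AutG), hv⟩
    refine ⟨(Equiv.ofBijective _ hbij).symm, fun u v => ?_⟩
    obtain ⟨x, rfl⟩ := (Equiv.ofBijective _ hbij).surjective u
    obtain ⟨y, rfl⟩ := (Equiv.ofBijective _ hbij).surjective v
    rw [Equiv.symm_apply_apply, Equiv.symm_apply_apply]
    obtain ⟨g, rfl⟩ := QuotientGroup.mk_surjective x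
    obtain ⟨g', rfl⟩ := QuotientGroup.mk_surjective y
    show A (g.1 (0, 0, 0)) (g'.1 (0, 0, 0)) ↔ _
    constructor
    · intro h
      refine ⟨g, g', rfl, rfl, 1, Subgroup.one_mem _, g⁻¹ * g', ?_, 1, Subgroup.one_mem _, by group⟩
      show A (0, 0, 0) ((g⁻¹ * g').1 (0, 0, 0))
      have h1 := (g⁻¹).2 (g.1 (0, 0, 0)) (g'.1 (0, 0, 0))
      have h2 := h1.1 h
      have h3 : (g⁻¹).1 (g.1 (0, 0, 0)) = (0, 0, 0) := by
        show (g.1)⁻¹ (g.1 (0, 0, 0)) = (0, 0, 0)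
        exact g.1.symm_apply_apply _
      rw [h3] at h2
      exact h2
    · rintro ⟨k, k', hk, hk', h1, hh1, s, hs, h2, hh2, heq⟩
      have e1 : k.1 (0, 0, 0) = g.1 (0, 0, 0) := by
        have := congrArg (MulAction.ofQuotientStabilizer AutG ((0, 0, 0) : W)) hk
        exact this
      have e2 : k'.1 (0, 0, 0) = g'.1 (0, 0, 0) := by
        have := congrArg (MulAction.ofQuotientStabilizer AutG ((0, 0, 0) : W)) hk'
        exact this
      have e3 : k' = k * h1 * s * h2 := by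
        have : k' = k * (k⁻¹ * k') := by group
        rw [this, heq]
        group
      have f1 : h1.1 (0, 0, 0) = (0, 0, 0) := hh1
      have f2 : h2.1 (0, 0, 0) = (0, 0, 0) := hh2
      rw [← e1, ← e2, e3]
      have h3 : A (0, 0, 0) (s.1 (0, 0, 0)) := hs
      have h4 := ((k * h1).2 (0, 0, 0) (s.1 (0, 0, 0))).1 h3
      have e4 : (k * h1).1 (0, 0, 0) = k.1 (0, 0, 0) := by
        show k.1 (h1.1 (0, 0, 0)) = k.1 (0, 0, 0)
        rw [f1]
      have e5 : (k * h1 * s * h2).1 (0, 0, 0) = (k * h1).1 (s.1 (0, 0, 0)) := by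
        show (k * h1).1 (s.1 (h2.1 (0, 0, 0))) = _
        rw [f2]
      rw [e5, ← e4]
      exact h4

instance (v : W) : DecidablePred (A v) := fun w =>
  inferInstanceAs (Decidable (w.1 = v.1 + 1 ∧ w.2.1 = v.2.2))

/-- The question has a negative answer: there is a finite loopless vertex-transitive digraph of
out-degree `2` which has a Cayley-coset presentation, and every Cayley-coset presentation
`D(G,S,H)` of it has `|H| > 2`. -/
theorem result : ∃ (V : Type) (_ : Fintype V) (E : V → V → Prop),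
    (∀ v, ¬ E v v) ∧
    (∀ u v, ∃ φ : Equiv.Perm V, IsAut E φ ∧ φ u = v) ∧
    (∀ v, Nat.card {w // E v w} = 2) ∧
    (∃ (G : Type) (_ : Group G) (_ : Finite G) (H : Subgroup G) (S : Set G),
      IsPresentation E G H S) ∧
    ∀ (G : Type u) [Group G] [Finite G] (H : Subgroup G) (S : Set G),
      IsPresentation E G H S → 2 < Nat.card H := by
  refine ⟨W, inferInstance, A, ?_, transitive, ?_, ⟨AutG, inferInstance, inferInstance, _, _,
    presentation⟩, fun G _ _ H S h => ?_⟩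
  · intro v h
    have h1 : v.1 + 0 = v.1 + 1 := by rw [add_zero]; exact h.1
    have h2 : (0 : ZMod 5) = 1 := add_left_cancel h1
    exact absurd h2 (by decide)
  · intro v
    rw [Nat.card_eq_fintype_card]
    revert v
    decide
  · obtain ⟨-, e, he⟩ := h
    exact main he

end Pool.Agent.Results.MP_89824e_co.StabilizerCounterexample
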